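import Pool.Agent.RFG43.Solv
import Pool.Agent.RFG43.Center

/-!
# `MP_b76cd5_al`: words outside `[F'', F]`

Let `F` be free of rank two. For every `ε > 0` there is `C` such that every word of length `n`
outside `[F'', F]` survives in a finite group of order at most `C n ^ (8/3 + ε)`, a quotient of
the free centre-by-metabelian group `F / [F'', F]`.

The proof. Words outside `F''` are covered by `Pool.Agent.RFG43.Solv.below_square`. For words in
`F''` the representations of `F` by the matrices `(1, u, z; 0, t, v; 0, 0, 1)` over the group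
ring of `ℤ²` are used: the entry `z` is a homomorphism on `F''` with kernel `[F'', F]`
(`F'' / [F'', F]` is generated by the commutators `[c, c^d]`, `c = [x, y]`, `d ∈ ℤ²`). It is a
Laurent polynomial in two variables with support in a box of side `2 n` and coefficients of
absolute sum at most `n²`. By `Pool.Agent.RFG43.exists_prime_eval` it does not vanish at some
point with coordinates in `(ZMod p)ˣ` for some prime `p ≤ n ^ (2/3 + o(1))`, and the specialised
group has order `p³ (p - 1)`.
-/

set_option autoImplicit false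

namespace Pool.Agent.Results.MP_b76cd5_al.CenterByMetabelian

/-- **Words outside `[F'', F]`.** For every `ε > 0` there is a constant `C` such that for every
free group `G` of rank two with basis `b` and every element `g` of `G` outside `[G'', G]`, of
length `n` with respect to `b`, some finite group of order at most `C n ^ (8/3 + ε)` has a
homomorphism `π` from `G` that does not kill `g` and kills `[G'', G]`. -/
theorem result (ε : ℝ) (hε : 0 < ε) : ∃ C : ℝ, 0 < C ∧
    ∀ (G : Type) [Group G] (b : FreeGroupBasis (Fin 2) G) (g : G),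
    g ∉ ⁅derivedSeries G 2, (⊤ : Subgroup G)⁆ →
    ∃ (Q : Type) (_ : Group Q) (π : G →* Q), Finite Q ∧ π g ≠ 1 ∧
      (∀ x ∈ ⁅derivedSeries G 2, (⊤ : Subgroup G)⁆, π x = 1) ∧
      (Nat.card Q : ℝ) ≤ C * ((b.repr g).norm : ℝ) ^ (8 / 3 + ε) := by
  obtain ⟨C1, hC1, h1⟩ := Pool.Agent.RFG43.center_bound ε hε
  obtain ⟨C2, hC2, h2⟩ := Pool.Agent.RFG43.Solv.below_square 2 le_rfl ε hε
  refine ⟨C1 + C2, by linarith, fun G _ b g hg => ?_⟩
  have hg1 : b.repr g ≠ 1 := by
    intro h
    apply hg
    have h3 : g = 1 := by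
      have := congrArg b.repr.symm h
      simpa using this
    rw [h3]
    exact one_mem _
  have hn1 : (1 : ℝ) ≤ (b.repr g).norm := by
    have : (b.repr g).norm ≠ 0 := fun h => hg1 (FreeGroup.norm_eq_zero.1 h)
    exact_mod_cast Nat.one_le_iff_ne_zero.2 this
  have hpow : (0 : ℝ) ≤ ((b.repr g).norm : ℝ) ^ (8 / 3 + ε) := by positivity
  by_cases hgd : g ∈ derivedSeries G 2
  · obtain ⟨Q, hQ, π, c1, c2, c3, c4⟩ := h1 G b g hgd hg
    refine ⟨Q, hQ, π, c1, c2, c3, c4.trans ?_⟩
    exact mul_le_mul_of_nonneg_right (by linarith) hpow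
  · obtain ⟨Q, hQ, π, c1, c2, c3, c4⟩ := h2 G (Fin 2) b (Fintype.card_fin 2) g hgd
    refine ⟨Q, hQ, π, c1, c2, fun x hx => c3 x (Subgroup.commutator_le_left _ _ hx),
      c4.trans ?_⟩
    have e1 : ((b.repr g).norm : ℝ) ^ (2 - 2 / 3 ^ (2 - 1) + ε : ℝ) ≤
        ((b.repr g).norm : ℝ) ^ (8 / 3 + ε) :=
      Real.rpow_le_rpow_of_exponent_le hn1 (by norm_num)
    calc C2 * ((b.repr g).norm : ℝ) ^ (2 - 2 / 3 ^ (2 - 1) + ε : ℝ) ≤
          C2 * ((b.repr g).norm : ℝ) ^ (8 / 3 + ε) := mul_le_mul_of_nonneg_left e1 hC2.le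
      _ ≤ _ := mul_le_mul_of_nonneg_right (by linarith) hpow

end Pool.Agent.Results.MP_b76cd5_al.CenterByMetabelian
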