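import Pool.Agent.RFG43.Cyc

/-!
# `MP_b76cd5_al`: words outside the third term of the lower central series of a cyclic cover

Let `F` be free with a basis `b`, and `K` the normal closure of all basis elements but one. For
every `ε > 0` there is `C`, independent of `F` and its rank, such that every word of length `n`
outside `γ₃(K) = [[K, K], K]` survives in a finite group of order at most `C n ^ (8/3 + ε)`, a
quotient of `F / γ₃(K)`.

The proof. `K` is free on the conjugates `b_i ^ (t ^ k)`, so that `K / γ₃(K)` is free nilpotent of
class two on them, and `F / K` is infinite cyclic generated by `t`. If the word is not in `[K, K]`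
it gives a Laurent polynomial in one variable. If it is in `[K, K]` its value in
`[K, K] / γ₃(K)` is given by Laurent polynomials in two variables (the coordinates at
`[b_i ^ (t ^ k), b_j ^ (t ^ l)]`), with support in a box of side `O(n)` and coefficients of
absolute sum at most `n²`. By `Pool.Agent.RFG43.exists_prime_eval` such a polynomial does not
vanish at some point of `(ZMod p)ˣ × (ZMod p)ˣ` for some prime `p ≤ n ^ (2/3 + o(1))`. This gives
a homomorphism to a group of `3 × 3` matrices over `ZMod p` of order at most `p³ (p - 1)`.
-/

set_option autoImplicit false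

open scoped commutatorElement

namespace Pool.Agent.Results.MP_b76cd5_al.CyclicCover

/-- **Words outside `γ₃(K)`.** For every `ε > 0` there is a constant `C` such that for every free
group `G` (of any rank) with basis `b`, every homomorphism `φ` from `G` to `ℤ` with value `1` on
one element of the basis and `0` on the others, with kernel `K`, and every element `g` of `G`
outside `[[K, K], K]`, of length `n` with respect to `b`, some finite group of order at most
`C n ^ (8/3 + ε)` has a homomorphism `π` from `G` that does not kill `g` and kills
`[[K, K], K]`. -/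
theorem result (ε : ℝ) (hε : 0 < ε) : ∃ C : ℝ, 0 < C ∧
    ∀ (G ι : Type) [Group G] [DecidableEq ι] (b : FreeGroupBasis ι G) (i₀ : ι)
      (φ : G →* Multiplicative ℤ), φ (b i₀) = Multiplicative.ofAdd 1 →
      (∀ i, i ≠ i₀ → φ (b i) = 1) → ∀ g : G, g ∉ ⁅⁅φ.ker, φ.ker⁆, φ.ker⁆ →
      ∃ (Q : Type) (_ : Group Q) (π : G →* Q), Finite Q ∧ π g ≠ 1 ∧
        (∀ x ∈ ⁅⁅φ.ker, φ.ker⁆, φ.ker⁆, π x = 1) ∧
        (Nat.card Q : ℝ) ≤ C * ((b.repr g).norm : ℝ) ^ (8 / 3 + ε) :=
  Pool.Agent.RFG43.Cyc.cyc_bound ε hε

end Pool.Agent.Results.MP_b76cd5_al.CyclicCover
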