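import Pool.Agent.H52FC.Fin
import Pool.Agent.H52FC.Sym

/-!
# `MP_b76cd5_al`: words outside the derived subgroups of virtually abelian covers

Let `F` be a free group of finite rank, `R` a subgroup of index `i`, `φ : R → ℤ^s` and
`ρ : R → P` homomorphisms to a free abelian and to a finite group, and `M = ker φ ∩ ker ρ`. If the
group ring `ℤ[P]` is separated by the integral representations of `P` of degree `d`, then every
word of length `n` outside `M' = [M, M]` survives in a finite quotient of order at most
`C n ^ (i (d + 1) τ(s) + ε)`, `τ(3) = 11 / 15` and `τ(s) = s / (s + 1)` otherwise. The exponent is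
below `3` for `i = 1`, `d ≤ 2`; for `i = 1`, `d = 3`, `s ≤ 3`; for `i = 1`, `d = 4`, `s = 1`; and
for `i = 2`, `d = 1`, `s ≤ 3`.

The proof. For a word `w` in `M` the path of `w` in the Cayley graph of `R / M` gives, for every
letter `x` of a basis of `R`, an element `D_x(w)` of the group ring of `ℤ^s × P`, and `w` is in
`M'` if and only if all of them vanish (Magnus embedding, `Pool.Agent.H52FC.magnus`). If one does
not vanish, an entry of its image under some `σ : P → GL_d(ℤ)` is a nonzero Laurent polynomial in
`s` variables with support in a box of side `O(n)` and coefficients of absolute sum `O(n)`. It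
does not vanish at some point with coordinates in `(ZMod p)ˣ` for some prime `p ≤ n ^ (τ(s) + ε)`
(`Pool.Agent.H52FC.prime_tau`; sieve, torsion points, lattice directions), and `w` survives in
the affine group `(ZMod p)^d ⋊ ((ZMod p)ˣ × P)` of order at most `|P| p ^ (d + 1)`. Words of `F`
are treated by inducing from `R`.
-/

set_option autoImplicit false

namespace Pool.Agent.Results.MP_b76cd5_al.FiniteCovers

open Pool.Agent.H52FC

/-- **Words outside `M'`.** Let `G` be a free group with a finite basis `b`, `R` a subgroup of
finite index, `φ : R → ℤ^s` (`s ≥ 1`) and `ρ : R → P` homomorphisms, where `P` is a finite group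
whose integral group ring is separated by the homomorphisms from `P` to the integral matrices of
size `d ≥ 1`, and let `M = ker φ ⊓ ker ρ`. For every `ε > 0` there is a constant `C` such that for
every element `g` of `G` outside `[M, M]`, of length `n` with respect to `b`, some finite group
`Q` of order at most `C n ^ (i (d + 1) τ(s) + ε)`, `i` the index of `R`, has a homomorphism
`π : G → Q` that does not kill `g` and kills every element all of whose conjugates are in
`[M, M]`. -/
theorem result (G ι : Type) [Group G] [Finite ι] [DecidableEq ι] (b : FreeGroupBasis ι G)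
    (R : Subgroup G) [R.FiniteIndex] (s d : ℕ) (hs : 1 ≤ s) (hd : 1 ≤ d)
    (φ : R →* Multiplicative (Fin s → ℤ)) (P : Type) [Group P] [Fintype P]
    (hP : Separated d P) (ρ : R →* P) (ε : ℝ) (hε : 0 < ε) :
    ∃ C : ℝ, 0 < C ∧ ∀ g : G, g ∉ (⁅φ.ker ⊓ ρ.ker, φ.ker ⊓ ρ.ker⁆).map R.subtype →
      ∃ (Q : Type) (_ : Group Q) (π : G →* Q), Finite Q ∧ π g ≠ 1 ∧
        (∀ x : G, (∀ y : G, y * x * y⁻¹ ∈
          (⁅φ.ker ⊓ ρ.ker, φ.ker ⊓ ρ.ker⁆).map R.subtype) → π x = 1) ∧
        (Nat.card Q : ℝ) ≤ C * ((b.repr g).norm : ℝ) ^ (R.index * (d + 1) * tau s + ε) :=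
  finite_covers G ι b R s d hs hd φ P hP ρ ε hε

/-- The trivial group is separated in degree one. -/
theorem separated_trivial : Separated 1 Unit := by
  intro f hf
  have h1 := hf 1
  have h2 := congrFun (congrFun h1 0) 0
  rw [Matrix.sum_apply, Finset.univ_unique, Finset.sum_singleton, Matrix.smul_apply,
    MonoidHom.one_apply, Matrix.one_apply_eq, smul_eq_mul, mul_one] at h2
  funext x
  exact h2

/-- The symmetric group on four letters is separated in degree three. -/
theorem separated_symmetric : Separated 3 (Equiv.Perm (Fin 4)) := separated_four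

end Pool.Agent.Results.MP_b76cd5_al.FiniteCovers
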