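import Mathlib
import Pool.Agent.RFGrowth.Prime
import Pool.Agent.RFGrowth.Mat

/-!
# `MP_b76cd5_al`: residual finiteness growth of free groups and the number of syllables

For a word `w` with `s` syllables with respect to some basis of a free group we bound the least
order `k(w)` of a finite group detecting `w` by `C (s + log lcm |e_j|)³`, where `e_j` are the
exponents, and so by `C (s (1 + log (n / s)))³` where `n` is the length of `w`. Consequently the
words responsible for a cubic residual finiteness growth have linearly many syllables, in every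
basis.
-/

namespace Pool.Agent.Results.MP_b76cd5_al.SyllableBound

open Pool.Agent.RFGrowth

/-- `k_Γ(g)`: the least order of a finite group `Q` with a homomorphism `π : Γ → Q` such that
`π g ≠ 1`. -/
noncomputable def kOf {G : Type} [Group G] (g : G) : ℕ :=
  sInf {k : ℕ | ∃ (Q : Type) (_ : Group Q) (π : G →* Q), Finite Q ∧ Nat.card Q = k ∧ π g ≠ 1}

/-- The element `b(i₁)^{e₁} ⋯ b(i_s)^{e_s}` of a free group with basis `b` given by the list
`(i₁, e₁), …, (i_s, e_s)`. -/
def word {G ι : Type} [Group G] (b : FreeGroupBasis ι G) (L : List (ι × ℤ)) : G :=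
  (L.map fun x => b x.1 ^ x.2).prod

/-- The list `(i₁, e₁), …, (i_s, e_s)` is the syllable decomposition of a nontrivial reduced
word: it is not empty, no exponent is zero and adjacent indices are different. -/
def IsSyllables {ι : Type} (L : List (ι × ℤ)) : Prop :=
  L ≠ [] ∧ (∀ x ∈ L, x.2 ≠ 0) ∧ (L.map Prod.fst).IsChain (· ≠ ·)

/-- The length `|e₁| + ⋯ + |e_s|` of the word. -/
def wlen {ι : Type} (L : List (ι × ℤ)) : ℕ := (L.map fun x => x.2.natAbs).sum

/-- The least common multiple of the numbers `|e₁|, …, |e_s|`. -/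
def wlcm {ι : Type} (L : List (ι × ℤ)) : ℕ := (L.map fun x => x.2.natAbs).foldr Nat.lcm 1

theorem dvd_wlcm {ι : Type} (L : List (ι × ℤ)) : ∀ x ∈ L, x.2.natAbs ∣ wlcm L := by
  induction L with
  | nil => simp
  | cons y L ih =>
    intro x hx
    have h : wlcm (y :: L) = Nat.lcm y.2.natAbs (wlcm L) := rfl
    rw [h]
    rcases List.mem_cons.1 hx with rfl | hx
    · exact Nat.dvd_lcm_left _ _
    · exact (ih x hx).trans (Nat.dvd_lcm_right _ _)

theorem wlcm_pos {ι : Type} (L : List (ι × ℤ)) : (∀ x ∈ L, x.2 ≠ 0) → 0 < wlcm L := by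
  induction L with
  | nil => intro _; exact Nat.one_pos
  | cons y L ih =>
    intro h
    have h' : wlcm (y :: L) = Nat.lcm y.2.natAbs (wlcm L) := rfl
    rw [h']
    exact Nat.lcm_pos (Int.natAbs_pos.2 (h y (by simp)))
      (ih fun x hx => h x (List.mem_cons_of_mem _ hx))

/-- The first bound. -/
theorem first : ∃ C : ℝ, 0 < C ∧ ∀ (G ι : Type) [Group G] (b : FreeGroupBasis ι G)
    (L : List (ι × ℤ)), IsSyllables L →
    ∃ (Q : Type) (_ : Group Q) (π : G →* Q), Finite Q ∧ π (word b L) ≠ 1 ∧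
      (Nat.card Q : ℝ) ≤ C * (L.length + Real.log (wlcm L)) ^ 3 := by
  classical
  obtain ⟨C, hC, hprime⟩ := exists_prime
  refine ⟨C ^ 3, by positivity, ?_⟩
  intro G ι _ b L ⟨hL, h0, hch⟩
  have hs : 1 ≤ L.length := List.length_pos_iff.2 hL
  obtain ⟨p, hp, hsp, hpm, hple⟩ := hprime L.length (wlcm L) hs (wlcm_pos L h0)
  have : Fact p.Prime := ⟨hp⟩
  -- an injection on the indices that occur
  obtain ⟨τ, hτ⟩ : ∃ τ : ι → ZMod p, Set.InjOn τ {i | i ∈ L.map Prod.fst} := by
    have hcard : Fintype.card {i // i ∈ (L.map Prod.fst).toFinset} ≤ Fintype.card (ZMod p) := by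
      rw [Fintype.card_coe, ZMod.card]
      refine (List.toFinset_card_le _).trans ?_
      rw [List.length_map]
      exact hsp.le
    obtain ⟨f⟩ := Function.Embedding.nonempty_of_card_le hcard
    refine ⟨fun i => if h : i ∈ (L.map Prod.fst).toFinset then f ⟨i, h⟩ else 0, ?_⟩
    intro i hi j hj hij
    have hi' : i ∈ (L.map Prod.fst).toFinset := List.mem_toFinset.2 hi
    have hj' : j ∈ (L.map Prod.fst).toFinset := List.mem_toFinset.2 hj
    simp only [dif_pos hi', dif_pos hj'] at hij
    exact congrArg Subtype.val (f.injective hij)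
  set L' : List (ZMod p × ZMod p) := L.map fun x => (τ x.1, (x.2 : ZMod p)) with hL'
  have hlen : L'.length = L.length := by rw [hL', List.length_map]
  have h0' : ∀ x ∈ L', x.2 ≠ 0 := by
    intro x hx
    rw [hL', List.mem_map] at hx
    obtain ⟨y, hy, rfl⟩ := hx
    intro h
    have h1 : (p : ℤ) ∣ y.2 := (ZMod.intCast_zmod_eq_zero_iff_dvd _ _).1 h
    have h2 : p ∣ y.2.natAbs := Int.natCast_dvd.1 h1
    exact hpm (h2.trans (dvd_wlcm L y hy))
  have hch' : (L'.map Prod.fst).IsChain (· ≠ ·) := by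
    have h1 : L'.map Prod.fst = (L.map Prod.fst).map τ := by
      rw [hL', List.map_map, List.map_map]
      rfl
    rw [h1, List.isChain_map]
    refine hch.imp_of_mem_imp fun i j hi hj hij h => hij (hτ hi hj h)
  obtain ⟨u, hu⟩ := exists_ne_one L' (by
    intro h
    rw [h] at hlen
    simp at hlen
    omega) h0' hch' (by rw [hlen, ZMod.card]; exact hsp)
  refine ⟨Matrix.SpecialLinearGroup (Fin 2) (ZMod p), inferInstance,
    b.lift fun i => par (τ i) u, inferInstance, ?_, ?_⟩
  · have h1 : (b.lift fun i => par (τ i) u) (word b L) =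
        (L'.map fun x => par x.1 (x.2 * u)).prod := by
      rw [word, map_list_prod, List.map_map, hL', List.map_map]
      congr 1
      refine List.map_congr_left fun x _ => ?_
      simp only [Function.comp_apply]
      rw [map_zpow, FreeGroupBasis.lift_apply_apply, FreeGroupBasis.repr_apply_coe,
        FreeGroup.lift_apply_of, par_zpow]
    rw [h1]
    exact hu
  · have h1 := card_le (F := ZMod p)
    rw [ZMod.card] at h1
    have h2 : (Nat.card (Matrix.SpecialLinearGroup (Fin 2) (ZMod p)) : ℝ) ≤ (p : ℝ) ^ 3 := by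
      exact_mod_cast h1
    refine h2.trans ?_
    rw [← mul_pow]
    exact pow_le_pow_left₀ (Nat.cast_nonneg _) hple 3

theorem wlcm_dvd_prod {ι : Type} (L : List (ι × ℤ)) :
    wlcm L ∣ (L.map fun x => x.2.natAbs).prod := by
  induction L with
  | nil => exact dvd_refl _
  | cons y L ih =>
    have h' : wlcm (y :: L) = Nat.lcm y.2.natAbs (wlcm L) := rfl
    rw [h', List.map_cons, List.prod_cons]
    exact Nat.lcm_dvd (dvd_mul_right _ _) (ih.trans (dvd_mul_left _ _))

theorem log_prod_le {ι : Type} (L : List (ι × ℤ)) (a : ℝ) (ha : 0 < a) : (∀ x ∈ L, x.2 ≠ 0) →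
    Real.log ((L.map fun x => x.2.natAbs).prod : ℕ) ≤
      (wlen L : ℝ) / a + L.length * (Real.log a - 1) := by
  induction L with
  | nil => intro _; simp [wlen]
  | cons y L ih =>
    intro h0
    have h1 := ih fun x hx => h0 x (List.mem_cons_of_mem _ hx)
    have hy : 0 < y.2.natAbs := Int.natAbs_pos.2 (h0 y (by simp))
    have hy' : (0 : ℝ) < y.2.natAbs := by exact_mod_cast hy
    have hp : 0 < (L.map fun x => x.2.natAbs).prod := by
      refine List.prod_pos ?_
      intro k hk
      rw [List.mem_map] at hk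
      obtain ⟨x, hx, rfl⟩ := hk
      exact Int.natAbs_pos.2 (h0 x (List.mem_cons_of_mem _ hx))
    have hp' : (0 : ℝ) < ((L.map fun x => x.2.natAbs).prod : ℕ) := by exact_mod_cast hp
    have hw : (wlen (y :: L) : ℝ) = y.2.natAbs + wlen L := by
      have : wlen (y :: L) = y.2.natAbs + wlen L := by
        rw [wlen, wlen, List.map_cons, List.sum_cons]
      rw [this]
      push_cast
      rfl
    rw [List.map_cons, List.prod_cons, Nat.cast_mul, Real.log_mul hy'.ne' hp'.ne', hw,
      List.length_cons]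
    have h2 := Real.log_le_sub_one_of_pos (show (0 : ℝ) < y.2.natAbs / a by positivity)
    rw [Real.log_div hy'.ne' ha.ne'] at h2
    rw [Nat.cast_succ, add_div]
    linarith

theorem length_le_wlen {ι : Type} (L : List (ι × ℤ)) : (∀ x ∈ L, x.2 ≠ 0) →
    L.length ≤ wlen L := by
  induction L with
  | nil => intro _; simp
  | cons y L ih =>
    intro h0
    have h1 := ih fun x hx => h0 x (List.mem_cons_of_mem _ hx)
    have hy : 0 < y.2.natAbs := Int.natAbs_pos.2 (h0 y (by simp))
    have : wlen (y :: L) = y.2.natAbs + wlen L := by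
      rw [wlen, wlen, List.map_cons, List.sum_cons]
    rw [this, List.length_cons]
    omega

theorem log_wlcm_le {ι : Type} (L : List (ι × ℤ)) (hL : IsSyllables L) :
    Real.log (wlcm L) ≤ L.length * Real.log ((wlen L : ℝ) / L.length) := by
  obtain ⟨hne, h0, -⟩ := hL
  have hs : 0 < L.length := List.length_pos_iff.2 hne
  have hs' : (0 : ℝ) < L.length := by exact_mod_cast hs
  have hn : 0 < wlen L := lt_of_lt_of_le hs (length_le_wlen L h0)
  have hn' : (0 : ℝ) < wlen L := by exact_mod_cast hn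
  have hprod : 0 < (L.map fun x => x.2.natAbs).prod := by
    refine List.prod_pos ?_
    intro k hk
    rw [List.mem_map] at hk
    obtain ⟨x, hx, rfl⟩ := hk
    exact Int.natAbs_pos.2 (h0 x hx)
  have h1 : Real.log (wlcm L) ≤ Real.log ((L.map fun x => x.2.natAbs).prod : ℕ) :=
    Real.log_le_log (by exact_mod_cast wlcm_pos L h0)
      (by exact_mod_cast Nat.le_of_dvd hprod (wlcm_dvd_prod L))
  have h2 := log_prod_le L ((wlen L : ℝ) / L.length) (by positivity) h0
  have h3 : (wlen L : ℝ) / ((wlen L : ℝ) / L.length) = L.length := by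
    field_simp
  rw [h3] at h2
  linarith

/-- **Theorem.** There is an absolute constant `C` such that, for every free group `G` with a
basis `b` and every nonempty reduced word `w = b(i₁)^{e₁} ⋯ b(i_s)^{e_s}` with `s` syllables and
length `n = |e₁| + ⋯ + |e_s|`, one has `w ≠ 1`, `k_G(w) ≤ C (s + log lcm(|e₁|, …, |e_s|))³` and
`k_G(w) ≤ C (s (1 + log (n / s)))³`. Moreover for each `c > 0` there is `δ > 0` such that every
word with `k_G(w) ≥ c n³` has `s ≥ δ n`, so that words witnessing a cubic lower bound have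
linearly many syllables with respect to every basis. -/
theorem result :
    (∃ C : ℝ, 0 < C ∧ ∀ (G ι : Type) [Group G] (b : FreeGroupBasis ι G) (L : List (ι × ℤ)),
      IsSyllables L →
      word b L ≠ 1 ∧
      (kOf (word b L) : ℝ) ≤ C * (L.length + Real.log (wlcm L)) ^ 3 ∧
      (kOf (word b L) : ℝ) ≤ C * (L.length * (1 + Real.log ((wlen L : ℝ) / L.length))) ^ 3) ∧
    ∀ c : ℝ, 0 < c → ∃ δ : ℝ, 0 < δ ∧ ∀ (G ι : Type) [Group G] (b : FreeGroupBasis ι G)
      (L : List (ι × ℤ)), IsSyllables L → c * (wlen L : ℝ) ^ 3 ≤ kOf (word b L) →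
      δ * wlen L ≤ L.length := by
  obtain ⟨C, hC, hfirst⟩ := first
  have hA : ∀ (G ι : Type) [Group G] (b : FreeGroupBasis ι G) (L : List (ι × ℤ)),
      IsSyllables L →
      word b L ≠ 1 ∧
      (kOf (word b L) : ℝ) ≤ C * (L.length + Real.log (wlcm L)) ^ 3 ∧
      (kOf (word b L) : ℝ) ≤
        C * (L.length * (1 + Real.log ((wlen L : ℝ) / L.length))) ^ 3 := by
    intro G ι _ b L hL
    obtain ⟨Q, _, π, hfin, hπ, hcard⟩ := hfirst G ι b L hL
    have hk : kOf (word b L) ≤ Nat.card Q := Nat.sInf_le ⟨Q, _, π, hfin, rfl, hπ⟩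
    have hk' : (kOf (word b L) : ℝ) ≤ Nat.card Q := by exact_mod_cast hk
    refine ⟨fun h => hπ (by rw [h, map_one]), hk'.trans hcard, (hk'.trans hcard).trans ?_⟩
    have h1 := log_wlcm_le L hL
    have h2 : (0 : ℝ) ≤ Real.log (wlcm L) :=
      Real.log_nonneg (by exact_mod_cast wlcm_pos L hL.2.1)
    refine mul_le_mul_of_nonneg_left (pow_le_pow_left₀ (by positivity) ?_ 3) hC.le
    linarith
  refine ⟨⟨C, hC, hA⟩, fun c hc => ?_⟩
  -- `x (1 - log x) → 0` as `x → 0⁺`
  have hlim : Filter.Tendsto (fun x : ℝ => C * (x * (1 - Real.log x)) ^ 3)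
      (nhdsWithin 0 (Set.Ioi 0)) (nhds 0) := by
    have h1 : Filter.Tendsto (fun x : ℝ => Real.log x * x ^ (1 : ℝ))
        (nhdsWithin 0 (Set.Ioi 0)) (nhds 0) := tendsto_log_mul_rpow_nhdsGT_zero one_pos
    have h2 : Filter.Tendsto (fun x : ℝ => x) (nhdsWithin 0 (Set.Ioi 0)) (nhds 0) :=
      Filter.tendsto_id.mono_left nhdsWithin_le_nhds
    have h3 := (((h2.sub h1).pow 3).const_mul C)
    simp only [Real.rpow_one, sub_zero, ne_eq, OfNat.ofNat_ne_zero, not_false_eq_true, zero_pow,
      mul_zero] at h3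
    refine h3.congr fun x => ?_
    ring
  have hev := (hlim.eventually (gt_mem_nhds hc))
  obtain ⟨δ, hδ, hsub⟩ := mem_nhdsGT_iff_exists_Ioo_subset.1 hev
  refine ⟨δ, hδ, fun G ι _ b L hL hge => ?_⟩
  by_contra hlt
  push Not at hlt
  obtain ⟨-, -, h3⟩ := hA G ι b L hL
  have hs : 0 < L.length := List.length_pos_iff.2 hL.1
  have hs' : (0 : ℝ) < L.length := by exact_mod_cast hs
  have hn : 0 < wlen L := lt_of_lt_of_le hs (length_le_wlen L hL.2.1)
  have hn' : (0 : ℝ) < wlen L := by exact_mod_cast hn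
  have hx : (L.length : ℝ) / wlen L ∈ Set.Ioo 0 δ :=
    ⟨by positivity, by rw [div_lt_iff₀ hn']; exact hlt⟩
  have h4 : C * ((L.length : ℝ) / wlen L * (1 - Real.log ((L.length : ℝ) / wlen L))) ^ 3 < c :=
    hsub hx
  have h5 : Real.log ((wlen L : ℝ) / L.length) = - Real.log ((L.length : ℝ) / wlen L) := by
    rw [← Real.log_inv, inv_div]
  rw [h5] at h3
  have h6 : C * ((L.length : ℝ) * (1 + -Real.log ((L.length : ℝ) / wlen L))) ^ 3 =
      (C * ((L.length : ℝ) / wlen L * (1 - Real.log ((L.length : ℝ) / wlen L))) ^ 3) *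
        (wlen L : ℝ) ^ 3 := by
    field_simp
    ring
  rw [h6] at h3
  have h7 : (0 : ℝ) < (wlen L : ℝ) ^ 3 := by positivity
  have h8 := mul_lt_mul_of_pos_right h4 h7
  linarith

end Pool.Agent.Results.MP_b76cd5_al.SyllableBound
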